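import Mathlib

set_option autoImplicit false

namespace Pool.Agent.Lib.Ramsey

/-- Finite hypergraph Ramsey theorem, for colourings of strictly increasing tuples. -/
theorem ramsey (κ : Type) [Finite κ] [Nonempty κ] (r : ℕ) : ∀ m : ℕ, ∃ N : ℕ,
    ∀ (ι : Type) [LinearOrder ι] (A : Finset ι), N ≤ A.card → ∀ χ : (Fin r → ι) → κ,
      ∃ B ⊆ A, B.card = m ∧ ∃ col : κ, ∀ f : Fin r → ι, StrictMono f → (∀ j, f j ∈ B) →
        χ f = col := by
  classical
  induction r with
  | zero =>
    intro m
    refine ⟨m, fun ι _ A hA χ => ?_⟩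
    obtain ⟨B, hBA, hB⟩ := Finset.exists_subset_card_eq hA
    exact ⟨B, hBA, hB, χ Fin.elim0, fun f _ _ => congrArg χ (Subsingleton.elim _ _)⟩
  | succ r ih =>
    have claim : ∀ t : ℕ, ∃ N : ℕ, ∀ (ι : Type) [LinearOrder ι] (A : Finset ι), N ≤ A.card →
        ∀ χ : (Fin (r + 1) → ι) → κ, ∃ B ⊆ A, B.card = t ∧ ∃ c : ι → κ,
          ∀ f : Fin (r + 1) → ι, StrictMono f → (∀ j, f j ∈ B) → χ f = c (f 0) := by
      intro t
      induction t with
      | zero =>
        refine ⟨0, fun ι _ A _ χ => ⟨∅, Finset.empty_subset _, rfl,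
          fun _ => Classical.arbitrary κ, fun f _ hf => absurd (hf 0) (by simp)⟩⟩
      | succ t iht =>
        obtain ⟨Nt, hNt⟩ := iht
        obtain ⟨R, hR⟩ := ih Nt
        refine ⟨R + 1, fun ι _ A hA χ => ?_⟩
        have hne : A.Nonempty := Finset.card_pos.1 (by omega)
        set a := A.min' hne with ha
        have haA : a ∈ A := A.min'_mem hne
        obtain ⟨A', hA'A, hA', col, hcol⟩ := hR ι (A.erase a)
          (by rw [Finset.card_erase_of_mem haA]; omega) (fun g => χ (Fin.cons a g))
        obtain ⟨B', hB'A, hB', c, hc⟩ := hNt ι A' hA'.ge χ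
        have hlt : ∀ x ∈ B', a < x := by
          intro x hx
          have hx' := Finset.mem_erase.1 (hA'A (hB'A hx))
          exact lt_of_le_of_ne (A.min'_le x hx'.2) hx'.1.symm
        have haB : a ∉ B' := fun h => lt_irrefl _ (hlt a h)
        refine ⟨insert a B', ?_, by rw [Finset.card_insert_of_notMem haB, hB'],
          Function.update c a col, fun f hf hfB => ?_⟩
        · intro x hx
          rcases Finset.mem_insert.1 hx with rfl | hx
          · exact haA
          · exact (Finset.mem_erase.1 (hA'A (hB'A hx))).2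
        · have hge : a ≤ f 0 := by
            rcases Finset.mem_insert.1 (hfB 0) with h | h
            · exact h.ge
            · exact (hlt _ h).le
          have htail : ∀ j : Fin r, f j.succ ∈ B' := by
            intro j
            rcases Finset.mem_insert.1 (hfB j.succ) with h | h
            · exact absurd (hge.trans_lt (hf (Fin.succ_pos j))) (by rw [h]; exact lt_irrefl _)
            · exact h
          by_cases h0 : f 0 = a
          · rw [h0, Function.update_self]
            have : f = Fin.cons a (Fin.tail f) := by rw [← h0, Fin.cons_self_tail]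
            rw [this]
            exact hcol (Fin.tail f) (hf.comp Fin.strictMono_succ) fun j => hB'A (htail j)
          · rw [Function.update_of_ne h0]
            refine hc f hf fun j => ?_
            refine Fin.cases ?_ htail j
            exact (Finset.mem_insert.1 (hfB 0)).resolve_left h0
    intro m
    have := Fintype.ofFinite κ
    obtain ⟨N, hN⟩ := claim (Fintype.card κ * m)
    refine ⟨N, fun ι _ A hA χ => ?_⟩
    obtain ⟨B, hBA, hB, c, hc⟩ := hN ι A hA χ
    obtain ⟨col, -, hcol⟩ := Finset.exists_le_card_fiber_of_mul_le_card_of_maps_to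
      (s := B) (t := Finset.univ) (f := c) (n := m) (fun _ _ => Finset.mem_univ _)
      Finset.univ_nonempty (by rw [hB]; exact le_rfl)
    obtain ⟨C, hCB, hC⟩ := Finset.exists_subset_card_eq hcol
    refine ⟨C, fun x hx => hBA (Finset.mem_filter.1 (hCB hx)).1, hC, col, fun f hf hfC => ?_⟩
    rw [hc f hf fun j => (Finset.mem_filter.1 (hCB (hfC j))).1]
    exact (Finset.mem_filter.1 (hCB (hfC 0))).2

end Pool.Agent.Lib.Ramsey
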